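import Mathlib

namespace Pool.Agent.Results.MP_f9f43c_al.Dual

open Polynomial TensorProduct

section
variable (D K A : Type) [CommRing D] [Field K] [Algebra D K] [Ring A] [Algebra D A]

/-- The image of `A` in `B = K ⊗[D] A`. -/
def imA : Set (K ⊗[D] A) := Set.range fun a : A => (1 : K) ⊗ₜ[D] a

/-- `f` maps `A` into `A`. -/
def Pres (f : K[X]) : Prop := ∀ b ∈ imA D K A, aeval b f ∈ imA D K A

variable {D K A}
theorem imA_eq : imA D K A =
    ((Algebra.TensorProduct.includeRight : A →ₐ[D] K ⊗[D] A).range : Set (K ⊗[D] A)) := by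
  ext x; simp [imA]
theorem pres_zero : Pres D K A 0 := fun _ _ => by rw [imA_eq, map_zero]; exact zero_mem _
theorem pres_one : Pres D K A 1 := fun _ _ => by rw [imA_eq, map_one]; exact one_mem _
theorem pres_neg {f : K[X]} (h : Pres D K A f) : Pres D K A (-f) := fun b hb => by
  have := h b hb
  rw [imA_eq] at this ⊢; rw [map_neg]; exact neg_mem this
theorem pres_add {f g : K[X]} (h : Pres D K A f) (h' : Pres D K A g) : Pres D K A (f + g) :=
  fun b hb => by
  have := h b hb
  have h2 := h' b hb
  rw [imA_eq] at this h2 ⊢; rw [map_add]; exact add_mem this h2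
theorem pres_mul {f g : K[X]} (h : Pres D K A f) (h' : Pres D K A g) : Pres D K A (f * g) :=
  fun b hb => by
  have := h b hb
  have h2 := h' b hb
  rw [imA_eq] at this h2 ⊢; rw [map_mul]; exact mul_mem this h2
variable (D K A)

/-- The ring `Int_K(A)`. -/
noncomputable def intK : Subring K[X] where
  carrier := {f | Pres D K A f}
  zero_mem' := pres_zero
  one_mem' := pres_one
  neg_mem' := pres_neg
  add_mem' := pres_add
  mul_mem' := pres_mul

/-- The set `A'` of elements of `B` integral over `D`. -/
def intEl : Set (K ⊗[D] A) := {b | IsIntegral D b}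
end

abbrev D := ℚ[X]
abbrev K := FractionRing D
abbrev A := DualNumber D

noncomputable def pr (l : A →ₗ[D] D) : K ⊗[D] A →ₗ[K] K :=
  (AlgebraTensorModule.rid D K K).toLinearMap ∘ₗ (l.baseChange K)

theorem pr_tmul (l : A →ₗ[D] D) (k : K) (a : A) : pr l (k ⊗ₜ a) = l a • k := by
  simp [pr]

theorem intK_eq : intK D K A = (mapRingHom (algebraMap D K)).range := by
  ext f
  constructor
  · intro hf
    have h1 : ∀ n : ℕ, f.eval (n : K) ∈ (algebraMap D K).range := by
      intro n
      obtain ⟨a, ha⟩ := hf _ ⟨(n : A), rfl⟩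
      have h2 : ((1 : K) ⊗ₜ[D] (n : A) : K ⊗[D] A) =
          (@algebraMap K (K ⊗[D] A) _ _ Algebra.TensorProduct.leftAlgebra) (n : K) := by
        rw [map_natCast]
        exact map_natCast (Algebra.TensorProduct.includeRight : A →ₐ[D] K ⊗[D] A) n
      simp only [h2, aeval_algebraMap_apply, coe_aeval_eq_eval] at ha
      have h3 := congrArg (pr (TrivSqZeroExt.fstHom D D D).toLinearMap) ha
      rw [Algebra.TensorProduct.algebraMap_apply, pr_tmul, pr_tmul] at h3
      exact ⟨a.fst, by simpa [Algebra.smul_def] using h3⟩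
    have hinj : Set.InjOn (fun n : ℕ => (n : K)) (Finset.range (f.natDegree + 1)) :=
      fun a _ b _ h => Nat.cast_injective h
    rw [Lagrange.eq_interpolate (f := f) hinj (by
      simpa using (degree_le_natDegree (p := f)).trans_lt (by exact_mod_cast Nat.lt_succ_self _)),
      Lagrange.interpolate_apply]
    have hC : ∀ x ∈ (algebraMap D K).range, C x ∈ (mapRingHom (algebraMap D K)).range := by
      rintro _ ⟨d, rfl⟩; exact ⟨C d, by simp⟩
    refine sum_mem fun i _ => mul_mem (hC _ (h1 i)) (prod_mem fun j _ => mul_mem (hC _ ?_)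
      (sub_mem ⟨X, by simp⟩ (hC _ (natCast_mem _ j))))
    refine ⟨C ((i : ℚ) - j)⁻¹, ?_⟩
    have : algebraMap D K (C ((i : ℚ) - j)⁻¹) = ((algebraMap D K).comp C) ((i : ℚ) - j)⁻¹ := rfl
    rw [this, map_inv₀, map_sub, map_natCast, map_natCast]
  · rintro ⟨g, rfl⟩ _ ⟨a, rfl⟩
    refine ⟨aeval a g, ?_⟩
    rw [coe_mapRingHom, aeval_map_algebraMap]
    exact (aeval_algHom_apply (Algebra.TensorProduct.includeRight : A →ₐ[D] K ⊗[D] A) a g).symm

theorem result : ∃ (D K A : Type) (_ : CommRing D) (_ : IsDomain D) (_ : Field K)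
    (_ : Algebra D K) (_ : Ring A) (_ : Algebra D A),
    IsFractionRing D K ∧ IsIntegrallyClosed D ∧ Function.Injective (algebraMap D A) ∧
    Module.IsTorsionFree D A ∧ Module.Finite D A ∧
    IsIntegrallyClosed (intK D K A) ∧ imA D K A ≠ intEl D K A := by
  refine ⟨D, K, A, inferInstance, inferInstance, inferInstance, inferInstance, inferInstance,
    inferInstance, inferInstance, inferInstance, TrivSqZeroExt.inl_injective,
    inferInstanceAs (Module.IsTorsionFree D (D × D)), inferInstanceAs (Module.Finite D (D × D)),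
    ?_, fun h => ?_⟩
  · rw [intK_eq]
    have hi : Function.Injective (mapRingHom (algebraMap D K)) :=
      map_injective _ (IsFractionRing.injective D K)
    exact IsIntegrallyClosed.of_equiv (RingEquiv.ofBijective (RingHom.rangeRestrict _)
      ⟨fun a b h => hi (congrArg Subtype.val h), RingHom.rangeRestrict_surjective _⟩)
  · have h1 : ((algebraMap D K X)⁻¹ ⊗ₜ[D] (DualNumber.eps : A)) ∈ intEl D K A :=
      ⟨X ^ 2, monic_X_pow 2, by
        simp [pow_two, Algebra.TensorProduct.tmul_mul_tmul]⟩
    rw [← h] at h1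
    obtain ⟨a, ha⟩ := h1
    have h3 := congrArg (pr (TrivSqZeroExt.sndHom D D)) ha
    simp only [pr_tmul, Algebra.smul_def, mul_one] at h3
    have h4 : algebraMap D K X ≠ 0 := (map_ne_zero_iff _ (IsFractionRing.injective D K)).2 X_ne_zero
    have h5 : algebraMap D K (X * a.snd) = algebraMap D K 1 := by
      rw [map_mul]; simp at h3; rw [h3]; simp [h4]
    have := congrArg (eval 0) (IsFractionRing.injective D K h5)
    simp at this

end Pool.Agent.Results.MP_f9f43c_al.Dual
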